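import Pool.Agent.Helper35.CWS.Main

/-!
# MP_a45945_gt: generalized 3-manifolds which are CW complexes

A locally orientable generalized 3-manifold which is a CW complex, or which is locally homeomorphic to
open subsets of locally compact CW complexes (cells of any dimension, any attaching maps), is a
topological 3-manifold.  In particular the resolution conjecture in dimension 3 holds for these spaces.
The CW complexes are those of Mathlib (`Topology.CWComplex`, `Topology.RelCWComplex`).
-/

set_option autoImplicit false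

namespace Pool.Agent.Results.MP_a45945_gt.CWComplexes

open Set Topology

/-! ## Singular homology of the pairs `(X, X ∖ B)` -/

/-- The standard `n`-simplex. -/
abbrev Dl (n : ℕ) : Type := stdSimplex ℝ (Fin (n + 1))

/-- The singular `n`-simplices of `X`: continuous maps from the standard `n`-simplex. -/
abbrev Sx (X : Type*) [TopologicalSpace X] (n : ℕ) := C(Dl n, X)

/-- The group of singular `n`-chains of `X` with integer coefficients. -/
abbrev Ch (X : Type*) [TopologicalSpace X] (n : ℕ) := Sx X n →₀ ℤ

/-- The inclusion of the `i`-th face (the vertex `j` goes to the vertex `i.succAbove j`). -/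
noncomputable def face (n : ℕ) (i : Fin (n + 2)) : C(Dl n, Dl (n + 1)) :=
  ⟨stdSimplex.map i.succAbove, stdSimplex.continuous_map _⟩

/-- The `i`-th face `σ ∘ face i` of a singular simplex, as a chain. -/
noncomputable def fc {X : Type*} [TopologicalSpace X] (n : ℕ) (σ : Sx X (n + 1)) (i : Fin (n + 2)) : Ch X n :=
  Finsupp.single (σ.comp (face n i)) 1

/-- The boundary of a singular simplex, `∂ σ = ∑ (-1)^i σ ∘ face i`. -/
noncomputable def bdσ {X : Type*} [TopologicalSpace X] (n : ℕ) (σ : Sx X (n + 1)) : Ch X n :=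
  ∑ i : Fin (n + 2), ((-1 : ℤ) ^ (i : ℕ)) • fc n σ i

/-- The boundary operator on chains, the linear extension of `σ ↦ ∂ σ`. -/
noncomputable def bd {X : Type*} [TopologicalSpace X] (n : ℕ) : Ch X (n + 1) →ₗ[ℤ] Ch X n :=
  Finsupp.linearCombination ℤ (bdσ n)

/-- The chains all of whose simplices have image in `S`. -/
noncomputable def cin {X : Type*} [TopologicalSpace X] (S : Set X) (n : ℕ) : Submodule ℤ (Ch X n) :=
  Finsupp.supported ℤ ℤ {σ : Sx X n | range σ ⊆ S}

/-- The relative cycles of the pair `(X, X ∖ B)`: the chains whose boundary is a chain of `X ∖ B`;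
in degree `0` all chains. -/
noncomputable def Cyc {X : Type*} [TopologicalSpace X] (B : Set X) : ∀ n : ℕ, Submodule ℤ (Ch X n)
  | 0 => ⊤
  | n + 1 => (cin Bᶜ n).comap (bd n)

/-- The relative boundaries of the pair `(X, X ∖ B)`: `C_n(X ∖ B) + ∂ C_{n+1}(X)`. -/
noncomputable def Nul {X : Type*} [TopologicalSpace X] (B : Set X) (n : ℕ) : Submodule ℤ (Ch X n) :=
  cin Bᶜ n ⊔ LinearMap.range (bd n)

/-- The relative singular homology group `H_n(X, X ∖ B; ℤ)`. -/
abbrev RelH (X : Type*) [TopologicalSpace X] (n : ℕ) (B : Set X) : Type _ :=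
  ↥(Cyc B n) ⧸ (Nul B n).comap (Cyc B n).subtype

/-- `X` is a `ℤ`-homology 3-manifold: `H_k(X, X ∖ {x}; ℤ) = 0` for `k < 3` and
`H_3(X, X ∖ {x}; ℤ) ≅ ℤ`, for every point `x`. -/
def IsHomology3Manifold (X : Type) [TopologicalSpace X] : Prop :=
  ∀ x : X, (∀ k : ℕ, k < 3 → Subsingleton (RelH X k {x})) ∧ Nonempty (RelH X 3 {x} ≃+ ℤ)

/-- `X` is locally orientable: every point has an open neighbourhood `N` and a class of
`H_3(X, X ∖ N; ℤ)`, represented by the relative cycle `c`, whose image generates
`H_3(X, X ∖ {y}; ℤ)` for every `y ∈ N`: every relative cycle `κ` of `(X, X ∖ {y})` of degree `3` is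
homologous to a multiple of `c`. -/
def LocallyOrientable (X : Type) [TopologicalSpace X] : Prop :=
  ∀ x : X, ∃ N : Set X, IsOpen N ∧ x ∈ N ∧ ∃ c ∈ Cyc N 3, ∀ y ∈ N, ∀ κ ∈ Cyc ({y} : Set X) 3,
    ∃ m : ℤ, κ - m • c ∈ Nul {y} 3

/-! ## Local contractibility, manifolds, cell-like maps, CW neighbourhoods -/

/-- `X` is locally contractible: every neighbourhood `U` of a point `x` contains a neighbourhood `V`
of `x` which is contractible in `U`. -/
def LocContr (X : Type) [TopologicalSpace X] : Prop :=
  ∀ (x : X) (U : Set X), IsOpen U → x ∈ U → ∃ V : Set X, IsOpen V ∧ x ∈ V ∧ V ⊆ U ∧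
    ∃ (H : C(unitInterval × ↥V, X)) (x₁ : X), (∀ v, H (0, v) = v) ∧ (∀ v, H (1, v) = x₁) ∧
      ∀ t v, H (t, v) ∈ U

/-- `X` is a topological `n`-manifold (the spaces here are metrizable): every point has an open
neighbourhood homeomorphic to an open subset of `ℝ^n`. -/
def IsTopManifold (n : ℕ) (X : Type) [TopologicalSpace X] : Prop :=
  ∀ x : X, ∃ U : Set X, IsOpen U ∧ x ∈ U ∧ ∃ f : ↥U → EuclideanSpace ℝ (Fin n), IsOpenEmbedding f

/-- `f : M → X` is cell-like: it is proper and surjective, and every fibre is contractible in every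
neighbourhood of itself. -/
def CellLike {M X : Type} [TopologicalSpace M] [TopologicalSpace X] (f : M → X) : Prop :=
  IsProperMap f ∧ Function.Surjective f ∧ ∀ (x : X) (U : Set M), IsOpen U → f ⁻¹' {x} ⊆ U →
    ∃ (H : C(unitInterval × ↥(f ⁻¹' {x}), M)) (p : M), (∀ v, H (0, v) = v) ∧ (∀ v, H (1, v) = p) ∧
      ∀ t v, H (t, v) ∈ U

/-- `X` is resolvable: there is a cell-like map of a (metrizable) topological manifold onto `X`. -/
def Resolvable (X : Type) [TopologicalSpace X] : Prop :=
  ∃ (M : Type) (_ : TopologicalSpace M), TopologicalSpace.MetrizableSpace M ∧ (∃ n : ℕ, IsTopManifold n M) ∧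
    ∃ f : M → X, CellLike f

/-- `x` has a CW neighbourhood: an open neighbourhood `U` of `x` is homeomorphic to an open subset of a
locally compact Hausdorff space `Y` with the structure of a CW complex relative to a closed subset
`D` of `Y` (the sense of Mathlib: `Topology.RelCWComplex`; `D` may be empty, then `Y` is a CW complex),
and `x` does not correspond to a point of `D`. -/
def HasCWNeighbourhood {X : Type} [TopologicalSpace X] (x : X) : Prop :=
  ∃ (Y : Type) (_ : TopologicalSpace Y) (_ : T2Space Y) (_ : LocallyCompactSpace Y) (D : Set Y)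
    (_ : RelCWComplex (univ : Set Y) D) (U : Set X) (hx : x ∈ U) (f : ↥U → Y),
    IsOpen U ∧ IsOpenEmbedding f ∧ f ⟨x, hx⟩ ∉ D

theorem locallyOrientable_iff {X : Type} [TopologicalSpace X] (h : LocallyOrientable X) :
    Pool.Agent.Helper13.TR.LocallyOrientable X := by
  intro x
  obtain ⟨N, hN, hx, c, hc, hg⟩ := h x
  refine ⟨N, hN, hx, c, hc, fun y hy => ?_⟩
  have hcy : c ∈ Pool.Agent.Helper13.TR.Cyc ({y} : Set X) 3 := by
    have h1 : Pool.Agent.Helper13.TR.cin (X := X) Nᶜ 2 ≤ Pool.Agent.Helper13.TR.cin ({y} : Set X)ᶜ 2 := by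
      apply Finsupp.supported_mono
      intro σ hσ
      exact hσ.trans (compl_subset_compl.mpr (singleton_subset_iff.mpr hy))
    exact h1 hc
  refine ⟨hcy, fun k => ?_⟩
  induction k using Submodule.Quotient.induction_on with
  | _ κ =>
    obtain ⟨m, hm⟩ := hg y hy κ.1 κ.2
    refine ⟨m, ?_⟩
    rw [← Submodule.Quotient.mk_smul, Submodule.Quotient.eq]
    exact hm

/-- Let `X` be a metrizable, locally compact, locally contractible, locally orientable
`ℤ`-homology 3-manifold (so every locally orientable generalized 3-manifold qualifies).  Every point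
of `X` which has a CW neighbourhood has an open neighbourhood homeomorphic to an open subset of `ℝ³`.
So if every point has a CW neighbourhood, for instance if `X` is a CW complex, then `X` is a topological
3-manifold, and `X` is resolvable. -/
theorem result (X : Type) [TopologicalSpace X] [TopologicalSpace.MetrizableSpace X]
    [LocallyCompactSpace X] (hlc : LocContr X) (hm : IsHomology3Manifold X) (ho : LocallyOrientable X) :
    (∀ x : X, HasCWNeighbourhood x → ∃ U : Set X, IsOpen U ∧ x ∈ U ∧
      ∃ f : ↥U → EuclideanSpace ℝ (Fin 3), IsOpenEmbedding f) ∧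
    ((∀ x : X, HasCWNeighbourhood x) → IsTopManifold 3 X ∧ Resolvable X) ∧
    (∀ _ : CWComplex (univ : Set X), IsTopManifold 3 X ∧ Resolvable X) := by
  have h1 : ∀ x : X, HasCWNeighbourhood x → ∃ U : Set X, IsOpen U ∧ x ∈ U ∧
      ∃ f : ↥U → EuclideanSpace ℝ (Fin 3), IsOpenEmbedding f := by
    rintro x ⟨Y, i1, i2, i3, D, i4, U, hx, f, hU, hf, hD⟩
    exact Pool.Agent.Helper35.CWS.main_local X hlc hm (locallyOrientable_iff ho) x Y D U hx f hU hf hD
  have h2 : (∀ x : X, HasCWNeighbourhood x) → IsTopManifold 3 X ∧ Resolvable X := fun h =>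
    ⟨fun x => h1 x (h x), Pool.Agent.Helper58.SF.main X fun x => h1 x (h x)⟩
  refine ⟨h1, h2, fun i => h2 fun x => ?_⟩
  exact ⟨X, inferInstance, inferInstance, inferInstance, ∅, inferInstance, univ, mem_univ x, Subtype.val,
    isOpen_univ, isOpen_univ.isOpenEmbedding_subtypeVal, notMem_empty _⟩

end Pool.Agent.Results.MP_a45945_gt.CWComplexes
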